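import Pool.Agent.R210.U4

/-!
At an interior singular point of a solution of the Navier-Stokes equations the lines spanned by the
vorticity leave every double cone or oscillate by a fixed amount at high vorticity; the vorticity
may change its sign.

`V = Fin 3 → ℝ` with the maximum norm. See the claim file for the definitions.
-/

open MeasureTheory Set Metric
open scoped ENNReal

namespace Pool.Agent.Results.MP_fd8964_an.InteriorLineField

open H459R3.NS W221.NS

/-- The Euclidean length of a vector of `ℝ³`. -/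
noncomputable def len (a : V) : ℝ := Real.sqrt (∑ i, a i ^ 2)

/-- The curl of a vector field. -/
noncomputable def curl (v : V → V) (x : V) : V :=
  ![pd 1 (fun y => v y 2) x - pd 2 (fun y => v y 1) x,
    pd 2 (fun y => v y 0) x - pd 0 (fun y => v y 2) x,
    pd 0 (fun y => v y 1) x - pd 1 (fun y => v y 0) x]

/-- The values `W(x)` at the points `x` of `U` lie in a double cone `{a : |a · e| ≥ η |a|}`, where
`e` is a unit vector. -/
def InDoubleCone (W : V → V) (η : ℝ) (U : Set V) : Prop := ∃ e : V, len e = 1 ∧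
  ∀ x ∈ U, η * len (W x) ≤ |∑ i, e i * W x i|

/-- Some values of `W` in `U` of length greater than `K` form an angle with sine greater than
`δ`. -/
def Turns (W : V → V) (δ K : ℝ) (U : Set V) : Prop := ∃ x ∈ U, ∃ y ∈ U,
  K < len (W x) ∧ K < len (W y) ∧
    δ * (len (W x) * len (W y)) < len (crossProduct (W x) (W y))

/-- For every `η > 0` there is a constant `c > 0` with the following property. Let `(u, p)` be a
smooth solution of the Navier-Stokes equations with viscosity `ν > 0` and force `f` in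
`(0, T) × Ω`, `Ω` open, `T > 0`, with bounded energy and finite dissipation; no boundary condition
is assumed. Let `x₀ ∈ Ω` be a singular point at the time `T`: `u` is unbounded in every
neighbourhood of `(T, x₀)`. Let `W = curl u`.

* There is `δ > 0` such that for all `K`, all `r > 0` and all `T₁ < T` there is a set of positive
  measure of times `t ∈ (T₁, T)` for which either the values of `W` in `ball x₀ r` lie in no double
  cone `{a : |a · e| ≥ η |a|}`, `|e| = 1`, or there are `x, y ∈ ball x₀ r` with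
  `|W(x)|, |W(y)| > K` such that the sine of the angle between `W(x)` and `W(y)` is greater than
  `δ`.
* If `closedBall x₀ r₀ ⊆ Ω`, the integral of `|W|` over `ball x₀ r₀` is at most `J` for almost
  every `t` in some `(T₀, T)`, `0 ≤ δ ≤ 1 / 8` and `δ J ≤ c ν r₀`, then for all `K`, all `r > 0` and
  all `T₁ < T` there is a set of positive measure of times `t ∈ (T₁, T)` for which either the
  values of `W` in `ball x₀ r₀` lie in no such double cone, or there are `x, y ∈ ball x₀ r` with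
  `|W(x)|, |W(y)| > K` such that the sine of the angle between `W(x)` and `W(y)` is greater than
  `δ`. For all small `r₀` such numbers `J`, `T₀` exist. -/
theorem result {η : ℝ} (hη : 0 < η) : ∃ c : ℝ, 0 < c ∧
    ∀ (ν T E F : ℝ) (Ω : Set V) (u : ℝ → V → V) (p : ℝ → V → ℝ) (f : ℝ → V → V),
      0 < ν → 0 < T → OSolF ν T E F Ω u p f →
      ∫⁻ t in Ioo 0 T, ∫⁻ y in Ω, ENNReal.ofReal (gsq (u t) y) ≠ ⊤ →
      ∀ x₀ ∈ Ω, Sing T u x₀ →
        (∃ δ : ℝ, 0 < δ ∧ ∀ K r T₁ : ℝ, 0 < r → T₁ < T →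
          ∃ᵐ t ∂(volume.restrict (Ioo T₁ T)), ¬ InDoubleCone (curl (u t)) η (ball x₀ r) ∨
            Turns (curl (u t)) δ K (ball x₀ r)) ∧
        (∀ r₀ J δ T₀ : ℝ, 0 < r₀ → closedBall x₀ r₀ ⊆ Ω → T₀ < T → 0 ≤ J →
          (∀ᵐ t ∂(volume.restrict (Ioo T₀ T)), ∫ y in ball x₀ r₀, len (curl (u t) y) ≤ J) →
          0 ≤ δ → δ ≤ 1 / 8 → δ * J ≤ c * ν * r₀ →
          ∀ K r T₁ : ℝ, 0 < r → T₁ < T → ∃ᵐ t ∂(volume.restrict (Ioo T₁ T)),
            ¬ InDoubleCone (curl (u t)) η (ball x₀ r₀) ∨ Turns (curl (u t)) δ K (ball x₀ r)) ∧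
        ∃ ρ J T₀ : ℝ, 0 < ρ ∧ 0 ≤ J ∧ T₀ < T ∧ ∀ t ∈ Ico T₀ T, ∀ r₀ : ℝ, 0 < r₀ → r₀ ≤ ρ →
          ∫ y in ball x₀ r₀, len (curl (u t) y) ≤ J := by
  obtain ⟨c, hc, H⟩ := Pool.Agent.R210.sing_lineE hη
  refine ⟨c, hc, fun ν T E F Ω u p f hν hT h hfin x₀ hx₀ hS => ⟨?_, ?_, ?_⟩⟩
  · obtain ⟨δ, hδ, H'⟩ := Pool.Agent.R210.sing_lineD hν h hfin hx₀ hT hS hη
    refine ⟨δ, hδ, fun K r T₁ hr hT₁ hcon => H' K r T₁ hr hT₁ ?_⟩
    filter_upwards [hcon] with t ht
    push Not at ht
    refine ⟨ht.1, fun x hx y hy h1 h2 => ?_⟩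
    by_contra h3
    exact ht.2 ⟨x, hx, y, hy, h1, h2, not_le.1 h3⟩
  · intro r₀ J δ T₀ hr₀ hΩ hT₀ hJ0 hJ hδ0 hδ8 hδ K r T₁ hr hT₁ hcon
    refine H hν hT h hfin hS hr₀ hΩ hT₀ hJ0 hJ hδ0 hδ8 hδ K r T₁ hr hT₁ ?_
    filter_upwards [hcon] with t ht
    push Not at ht
    refine ⟨ht.1, fun x hx y hy h1 h2 => ?_⟩
    by_contra h3
    exact ht.2 ⟨x, hx, y, hy, h1, h2, not_le.1 h3⟩
  · obtain ⟨ρ, J, ta, hρ, hJ0, -, htaT, hJ⟩ := Pool.Agent.R210.l1_local hν h hfin hx₀ hT
    exact ⟨ρ, J, ta, hρ, hJ0, htaT, hJ⟩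

end Pool.Agent.Results.MP_fd8964_an.InteriorLineField
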