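import Pool.Agent.R210.N16

/-!
The direction of the vorticity near an interior singular point of a solution of the Navier-Stokes
equations is not Hoelder continuous, with any exponent.

`V = Fin 3 → ℝ` with the maximum norm. See the claim file for the definitions.
-/

open MeasureTheory Set Metric
open scoped ENNReal

namespace Pool.Agent.Results.MP_fd8964_an.InteriorVorticityDirection

open H459R3.NS W221.NS

/-- The Euclidean length of a vector of `ℝ³`. -/
noncomputable def len (a : V) : ℝ := Real.sqrt (∑ i, a i ^ 2)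

/-- The curl of a vector field. -/
noncomputable def curl (v : V → V) (x : V) : V :=
  ![pd 1 (fun y => v y 2) x - pd 2 (fun y => v y 1) x,
    pd 2 (fun y => v y 0) x - pd 0 (fun y => v y 2) x,
    pd 0 (fun y => v y 1) x - pd 1 (fun y => v y 0) x]

/-- Let `(u, p)` be a smooth solution of the Navier-Stokes equations with viscosity `ν > 0` and
force `f` in `(0, T) × Ω`, `Ω` open, with bounded energy and finite dissipation; no boundary
condition is assumed. Let `x₀ ∈ Ω` be a singular point at the time `T`: `u` is unbounded in every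
neighbourhood of `(T, x₀)`. Let `W = curl u`, `ξ = W / |W|`, `0 < β ≤ 1`, `K` real, `r > 0`,
`0 ≤ T₁ < T`, and let `c` be in `Lᵃ(T₁, T)` with `a = (1 + 2 β) / β ^ 2` (for instance a constant).
Then there is a set of positive measure of times `t ∈ (T₁, T)` for which there are
`x, y ∈ ball x₀ r` with `|W(x)|, |W(y)| > K` and `|ξ(x) - ξ(y)| > c(t) |x - y| ^ β` (the
denominators are cleared). -/
theorem result {ν T E F : ℝ} {Ω : Set V} {u : ℝ → V → V} {p : ℝ → V → ℝ} {f : ℝ → V → V}
    (hν : 0 < ν) (h : OSolF ν T E F Ω u p f)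
    (hfin : ∫⁻ t in Ioo 0 T, ∫⁻ y in Ω, ENNReal.ofReal (gsq (u t) y) ≠ ⊤)
    {x₀ : V} (hx₀ : x₀ ∈ Ω) (hS : Sing T u x₀)
    {β K r T₁ : ℝ} (hβ0 : 0 < β) (hβ1 : β ≤ 1) (hr : 0 < r) (hT₁ : 0 ≤ T₁) (hT₁T : T₁ < T)
    {c : ℝ → ℝ}
    (hc : MemLp c (ENNReal.ofReal ((1 + 2 * β) / β ^ 2)) (volume.restrict (Ioo T₁ T))) :
    ∃ᵐ t ∂(volume.restrict (Ioo T₁ T)), ∃ x ∈ ball x₀ r, ∃ y ∈ ball x₀ r,
      K < len (curl (u t) x) ∧ K < len (curl (u t) y) ∧
      c t * len (x - y) ^ β * (len (curl (u t) x) * len (curl (u t) y))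
        < len (len (curl (u t) y) • curl (u t) x - len (curl (u t) x) • curl (u t) y) := by
  intro hcon
  refine Pool.Agent.R210.local_reg (c := c) (K := K) hν h hfin hx₀ hβ0 hβ1 hr hT₁ hT₁T hc ?_ hS
  filter_upwards [hcon] with t ht
  intro x hx y hy h1 h2
  by_contra h3
  exact ht ⟨x, hx, y, hy, h1, h2, not_le.1 h3⟩

end Pool.Agent.Results.MP_fd8964_an.InteriorVorticityDirection
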