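import Pool.Agent.R772.LI10

/-!
# A point of local instability at a first singular time, at the parabolic scale

Local scale invariant criteria, up to the boundary, for Leray-Hopf solutions of the Navier-Stokes
equations with viscosity `ν` in an arbitrary bounded open set `Ω ⊆ ℝ³`, without any regularity of
the boundary. At a first singular time `τ` there is a point `x₀` of the closure of `Ω` such that in
no neighborhood of `x₀` and in no time interval `(t₁,τ)` the following is true: for almost every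
`t` and for all `x ∈ Ω` near `x₀`, in the ball around `x` with the radius `3 K₀ √(ν (τ - t)) / m`
(`K₀` is an absolute constant) either
* `-ξ·∇u ξ ≤ (κ ν / |x' - y|² + b / (τ - t)) |ξ|²` for all `ξ`, with `4κ + m ≤ 1`, `b + m ≤ 3/4`; or
* `|u - (a + A x')| ≤ k ν / |x' - y| + K √(ν / (τ - t))`, for some rigid motion `a + A x'`, with
  `K² ≤ 3 (1 - 2k - m)`.
Which of the two bounds holds, the point `y` and the rigid motion are allowed to depend on the ball
and on time in an arbitrary way. In general, `u(t)` is allowed to be in each ball the sum of a field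
the compression of which has a small quadratic form, and of a field bounded by a form bounded
potential. If bounds of this kind hold in the balls with the radius `ρ(t)` around all points of `Ω`
with the rate `β(t)` instead of `b / (τ - t)`, the integral of `β + C ν ρ⁻²` must grow like
`(3/4) log (1/(τ - t))`.
-/

set_option autoImplicit false

open MeasureTheory Set Filter Topology
open scoped InnerProductSpace ENNReal ContDiff

namespace Pool.Agent.Results.MP_fd8964_an.LocalInstability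

open H772R2.NS.Pub Pool.Agent.W795.TQ Pool.Agent.R772.LI

/-- There is an absolute constant `K₀` with the following property. Let `u` be a Leray-Hopf solution
on `[0,T]` with admissible data in a bounded open set `Ω`, with the gradient `G`. Then either `u` is
a strong solution on `[0,T]`, or there is a first singular time `τ ∈ (0,T]` with the following
properties.
(0) For `0 ≤ c < c' < 1` and `0 ≤ s < τ` there is a number `M` such that, whenever `β ≥ 0`, `ρ > 0`,
`β` and `1/ρ²` are locally integrable on `[s,τ)` and for almost every `t ∈ (s,τ)` the field `u(t)` is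
`(c, β(t))`-quiet in the ball with the radius `ρ(t)` around every point of `Ω`, one has
`∫_s^t β + (K₀² ν / (c' - c)) ∫_s^t ρ⁻² ≥ (3/4) log (1/(τ - t)) - M` for `t < τ` arbitrarily close
to `τ`.
There is a point `x₀ ∈ closure Ω` such that for all `r > 0`:
(1) if `0 ≤ c < 1`, `0 ≤ b < 3/4`, `0 ≤ s < τ`, `β ≥ 0` is locally integrable on `[s,τ)` and
`∫_s^t β / log (1/(τ - t)) → 0` as `t → τ`, it is impossible that for almost every `t ∈ (s,τ)` and
all `x ∈ Ω` with `|x - x₀| < r` the field `u(t)` is `(c, b/(τ - t) + β(t))`-quiet in the ball with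
the center `x` and the radius `K₀ √(ν (τ - t) / ((1 - c) (3/4 - b)))`;
(2) if `κ, b, k, K ≥ 0`, `m > 0`, `4κ + m ≤ 1`, `b + m ≤ 3/4`, `K² ≤ 3 (1 - 2k - m)`, it is
impossible that for almost every `t` in an interval `(t₁,τ)` and for all `x ∈ Ω` with `|x - x₀| < r`
in the ball with the center `x` and the radius `3 K₀ √(ν (τ - t)) / m` the compression is at most
`κ ν / |x' - y|² + b / (τ - t)`, for some `y`, or the speed in some rigidly moving frame is at most
`k ν / |x' - y| + K √(ν / (τ - t))`, for some `y`. -/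
theorem result :
    ∃ K₀ : ℝ, 0 < K₀ ∧
    ∀ (Ω : Set R3), IsOpen Ω → Bornology.IsBounded Ω → ∀ (ν T : ℝ), 0 < ν → 0 < T →
    ∀ (F F' : ℝ → L2 Ω Mat), IsH1 T F F' →
    ∀ (u : ℝ → L2 Ω R3) (G : ℝ → L2 Ω Mat), IsLerayHopf Ω ν T F u G →
    ∀ z0 : L2 Ω Mat, (u 0, z0) ∈ H1graph Ω →
    (∃ g : L2 Ω R3, ∀ φ, IsTest Ω φ → rhs ν (u 0) z0 (F 0) φ = ∫ x in Ω, ⟪g.fn x, φ x⟫_ℝ) →
    (∃ u' G1 G', IsStrong Ω ν T F u u' G1 G') ∨
    ∃ τ ∈ Ioc 0 T, (∀ t ∈ Ioo 0 τ, ∃ u' G1 G', IsStrong Ω ν t F u u' G1 G') ∧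
      (∀ c c' s : ℝ, 0 ≤ c → c < c' → c' < 1 → s ∈ Ico 0 τ → ∃ M : ℝ, ∀ β ρ : ℝ → ℝ,
        (∀ t, 0 ≤ β t) → (∀ t, 0 < ρ t) → (∀ t ∈ Ioo s τ, IntervalIntegrable β volume s t) →
        (∀ t ∈ Ioo s τ, IntervalIntegrable (fun a => (ρ a ^ 2)⁻¹) volume s t) →
        (∀ᵐ t ∂(volume.restrict (Ioo s τ)), ∀ x ∈ Ω,
          Quiet (Metric.ball x (ρ t)) ν c (β t) (u t)) →
        ∀ t0 < τ, ∃ t ∈ Ioo t0 τ, s < t ∧ 3 / 4 * Real.log (1 / (τ - t)) - M
          ≤ (∫ a in s..t, β a) + K₀ ^ 2 * ν / (c' - c) * ∫ a in s..t, (ρ a ^ 2)⁻¹) ∧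
      ∃ x0 ∈ closure Ω, ∀ r > 0,
        (∀ c b s : ℝ, 0 ≤ c → c < 1 → 0 ≤ b → b < 3 / 4 → s ∈ Ico 0 τ → ∀ β : ℝ → ℝ,
          (∀ t, 0 ≤ β t) → (∀ t ∈ Ioo s τ, IntervalIntegrable β volume s t) →
          Tendsto (fun t => (∫ a in s..t, β a) / Real.log (1 / (τ - t))) (𝓝[<] τ) (𝓝 0) →
          ¬ ∀ᵐ t ∂(volume.restrict (Ioo s τ)), ∀ x ∈ Ω ∩ Metric.ball x0 r,
            Quiet (Metric.ball x (K₀ * Real.sqrt (ν * (τ - t) / ((1 - c) * (3 / 4 - b))))) ν c
              (b / (τ - t) + β t) (u t)) ∧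
        ∀ κ b k K m t1 : ℝ, 0 ≤ κ → 0 ≤ b → 0 ≤ k → 0 ≤ K → 0 < m → 4 * κ + m ≤ 1 →
          b + m ≤ 3 / 4 → K ^ 2 ≤ 3 * (1 - 2 * k - m) → t1 < τ →
          ¬ ∀ᵐ t ∂(volume.restrict (Ioo t1 τ)), ∀ x ∈ Ω ∩ Metric.ball x0 r,
            SlowStrainIn (Metric.ball x (3 * K₀ * Real.sqrt (ν * (τ - t)) / m)) (κ * ν)
              (b / (τ - t)) (G t) ∨
            SlowVelocityIn (Metric.ball x (3 * K₀ * Real.sqrt (ν * (τ - t)) / m)) (k * ν)
              (K * Real.sqrt (ν / (τ - t))) (u t) := by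
  refine ⟨K0, K0_pos, ?_⟩
  intro Ω hΩ hb ν T hν hT F F' hF u G L z0 h0 hg
  rcases main_form Ω hΩ hb ν T hν hT F F' hF u G L z0 h0 hg with h1 | ⟨τ, hτ, h1, h2⟩
  · exact Or.inl h1
  have hG : ∀ᵐ t ∂(volume.restrict (Ioo 0 τ)), (u t, G t) ∈ H1graph Ω :=
    ae_mono (Measure.restrict_mono (Ioo_subset_Ioc_self.trans
      (Ioc_subset_Ioc_right hτ.2)) le_rfl) L.grad
  refine Or.inr ⟨τ, hτ, h1, fun c c' s hc hcc hc1 hs => uniform hΩ hν hG h2 hc hcc hc1 hs, ?_⟩
  by_contra hcon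
  refine local_contra hΩ hb hν hτ.1 hG h2 fun x0 hx0 => ?_
  have h3 := not_exists.1 hcon x0
  rw [not_and] at h3
  replace h3 := h3 hx0
  rw [not_forall] at h3
  obtain ⟨r, h3⟩ := h3
  rw [Classical.not_imp] at h3
  obtain ⟨hr, h3⟩ := h3
  rw [not_and_or] at h3
  rcases h3 with h3 | h3
  · simp only [not_forall, not_not] at h3
    obtain ⟨c, b, s, hc0, hc1, hb0, hb1, hs, β, hβ0, hβi, hβl, hq⟩ := h3
    exact ⟨r, c, b, s, β, hr, hc0, hc1, hb0, hb1, hs, hβ0, hβi, hβl, hq⟩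
  · simp only [not_forall, not_not] at h3
    obtain ⟨κ, b, k, K, m, t1, hκ, hb0, hk, hK, hm, e1, e2, e3, ht1, hq⟩ := h3
    refine ⟨r, 1 - m / 2, 3 / 4 - 3 / 8 * m, max t1 0, 0, hr, by linarith, by linarith,
      by linarith, by linarith, ⟨le_max_right _ _, max_lt ht1 hτ.1⟩, fun t => le_rfl,
      fun t _ => intervalIntegrable_const, ?_, ?_⟩
    · simp
    · have g1 := ae_mono (Measure.restrict_mono (Ioo_subset_Ioo_left (le_max_left t1 0)) le_rfl) hq
      have g2 := ae_mono (Measure.restrict_mono (Ioo_subset_Ioo_left (le_max_right t1 0)) le_rfl) hG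
      filter_upwards [g1, g2, ae_restrict_mem measurableSet_Ioo] with t g3 g4 htI x hx
      have hδ : 0 < τ - t := by linarith [htI.2]
      have g5 := explicit_quiet hΩ hν hδ hκ hb0 hk hK hm e1 e2 e3 g4 (g3 x hx)
      have g6 : (3 / 4 - 3 / 8 * m) / (τ - t) + (0 : ℝ → ℝ) t = (3 / 4 - 3 / 8 * m) / (τ - t) := by
        simp
      rw [g6]
      exact g5

end Pool.Agent.Results.MP_fd8964_an.LocalInstability
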